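import Pool.Agent.H317.GR.StmD

/-!
# Project GR (helper317), task SU3: rank one Steinberg systems are elementary matrices
-/

set_option autoImplicit false

namespace Pool.Agent.H390.GR

open Matrix Module Pool.Agent.H317.GR

section aux

variable {K : Type} [Field K] {n : ℕ}

theorem vv (u v w x : Fin n → K) :
    vecMulVec u v * vecMulVec w x = (v ⬝ᵥ w) • vecMulVec u x := by
  rw [vecMulVec_mul_vecMulVec]
  ext p q
  simp only [vecMulVec_apply, Matrix.smul_apply, Pi.smul_apply, smul_eq_mul]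
  ring

theorem smul_vv_zero {u x : Fin n → K} (hu : u ≠ 0) (hx : x ≠ 0) {c : K}
    (h : c • vecMulVec u x = 0) : c = 0 := by
  obtain ⟨p, hp⟩ := Function.ne_iff.1 hu
  obtain ⟨q, hq⟩ := Function.ne_iff.1 hx
  have h2 := congrFun (congrFun h p) q
  simp only [Matrix.smul_apply, vecMulVec_apply, smul_eq_mul, Matrix.zero_apply] at h2
  simp only [Pi.zero_apply] at hp hq
  rcases mul_eq_zero.1 h2 with h | h
  · exact h
  · exact absurd h (mul_ne_zero hp hq)

theorem opo (A B : Matrix (Fin n) (Fin n) K) : (1 + A) * (1 + B) = 1 + A + B + A * B := by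
  rw [mul_add, add_mul 1 A B, mul_one, one_mul]
  abel

theorem one_add_pow {N : Matrix (Fin n) (Fin n) K} (hN : N * N = 0) (k : ℕ) :
    (1 + N) ^ k = 1 + (k : K) • N := by
  induction k with
  | zero => simp
  | succ k ih =>
    rw [pow_succ, ih]
    push_cast
    rw [add_mul, mul_add, one_mul, one_mul, mul_add, mul_one, Matrix.smul_mul, hN, smul_zero,
      add_zero, add_smul, one_smul]
    abel

theorem third {n : ℕ} (hn : 3 ≤ n) (i j : Fin n) : ∃ l : Fin n, l ≠ i ∧ l ≠ j := by
  by_contra h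
  push Not at h
  have h1 : (Finset.univ : Finset (Fin n)) ⊆ {i, j} := by
    intro l _
    rw [Finset.mem_insert, Finset.mem_singleton]
    by_cases hl : l = i
    · exact Or.inl hl
    · exact Or.inr (h l hl)
  have h2 := (Finset.card_le_card h1).trans Finset.card_le_two
  rw [Finset.card_univ, Fintype.card_fin] at h2
  omega

end aux

theorem su3 : S_SU3 := by
  intro n hn K _ _ k hk T v φ h1 h2 h3
  have hk0 : (k : K) ≠ 0 := by exact_mod_cast (by omega : k ≠ 0)
  have hv : ∀ i, v i ≠ 0 := by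
    intro i
    obtain ⟨l, hl, -⟩ := third hn i i
    exact (h1 i l hl.symm).1
  have hφ : ∀ i j, i ≠ j → φ i j ≠ 0 := fun i j h => (h1 i j h).2.1
  have hT : ∀ i j, i ≠ j → T i j = 1 + vecMulVec (v i) (φ i j) := fun i j h => (h1 i j h).2.2.1
  -- (0)
  have d0 : ∀ i j, i ≠ j → φ i j ⬝ᵥ v i = 0 := by
    intro i j h
    have h4 := Matrix.isNilpotent_trace_of_isNilpotent (h1 i j h).2.2.2
    rw [hT i j h, add_sub_cancel_left, Matrix.trace_vecMulVec] at h4
    rw [dotProduct_comm]
    exact h4.eq_zero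
  have nn : ∀ i j, i ≠ j → vecMulVec (v i) (φ i j) * vecMulVec (v i) (φ i j) = 0 := by
    intro i j h
    rw [vv, d0 i j h, zero_smul]
  have hTk : ∀ i j, i ≠ j → T i j ^ k = 1 + (k : K) • vecMulVec (v i) (φ i j) := by
    intro i j h
    rw [hT i j h, one_add_pow (nn i j h)]
  -- the third relation, expanded
  have r3 : ∀ i j l, i ≠ j → j ≠ l → i ≠ l → φ j l ⬝ᵥ v i = 0 → φ i l ⬝ᵥ v j = 0 →
      (φ i j ⬝ᵥ v j) • vecMulVec (v i) (φ j l) = (k : K) • vecMulVec (v i) (φ i l) := by
    intro i j l hij hjl hil a1 a2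
    have h4 := h3 i j l hij hjl hil
    rw [hTk i l hil, hT i j hij, hT j l hjl] at h4
    have e1 : vecMulVec (v j) (φ j l) * vecMulVec (v i) (φ i j) = 0 := by rw [vv, a1, zero_smul]
    have e2 : vecMulVec (v i) (φ i l) * vecMulVec (v j) (φ j l) = 0 := by rw [vv, a2, zero_smul]
    have e3 : vecMulVec (v i) (φ i l) * vecMulVec (v i) (φ i j) = 0 := by
      rw [vv, d0 i l hil, zero_smul]
    have e4 : vecMulVec (v i) (φ i j) * vecMulVec (v j) (φ j l) =
        (φ i j ⬝ᵥ v j) • vecMulVec (v i) (φ j l) := vv _ _ _ _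
    have e5 : (1 + vecMulVec (v j) (φ j l)) * (1 + vecMulVec (v i) (φ i j)) =
        1 + vecMulVec (v i) (φ i j) + vecMulVec (v j) (φ j l) := by
      rw [opo, e1]
      abel
    have e6 : (1 + (k : K) • vecMulVec (v i) (φ i l)) *
        (1 + vecMulVec (v i) (φ i j) + vecMulVec (v j) (φ j l)) =
        1 + vecMulVec (v i) (φ i j) + vecMulVec (v j) (φ j l) +
          (k : K) • vecMulVec (v i) (φ i l) := by
      rw [add_mul, one_mul, mul_add, mul_add, mul_one, Matrix.smul_mul, Matrix.smul_mul, e2, e3,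
        smul_zero, add_zero, add_zero]
    have e7 : (1 + vecMulVec (v i) (φ i j)) * (1 + vecMulVec (v j) (φ j l)) =
        1 + vecMulVec (v i) (φ i j) + vecMulVec (v j) (φ j l) +
          (φ i j ⬝ᵥ v j) • vecMulVec (v i) (φ j l) := by
      rw [opo, e4]
    rw [e5, e6, e7] at h4
    exact add_left_cancel h4
  -- (1)
  have ind : ∀ i j, i ≠ j → ∀ c : K, c • v i ≠ v j := by
    intro i j hij c hc
    have hc0 : c ≠ 0 := by
      rintro rfl
      exact hv j (by rw [← hc, zero_smul])
    have hci : v i = c⁻¹ • v j := by rw [← hc, smul_smul, inv_mul_cancel₀ hc0, one_smul]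
    obtain ⟨l, hli, hlj⟩ := third hn i j
    have a1 : φ j l ⬝ᵥ v i = 0 := by
      rw [hci, dotProduct_smul, d0 j l hlj.symm, smul_zero]
    have a2 : φ i l ⬝ᵥ v j = 0 := by
      rw [← hc, dotProduct_smul, d0 i l hli.symm, smul_zero]
    have a3 : φ i j ⬝ᵥ v j = 0 := by
      rw [← hc, dotProduct_smul, d0 i j hij, smul_zero]
    have h4 := r3 i j l hij hlj.symm hli.symm a1 a2
    rw [a3, zero_smul] at h4
    exact hk0 (smul_vv_zero (hv i) (hφ i l hli.symm) h4.symm)
  -- (2)
  have d2 : ∀ i l j, i ≠ l → j ≠ l → φ i l ⬝ᵥ v j = 0 := by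
    intro i l j hil hjl
    by_cases hij : i = j
    · rw [← hij]; exact d0 i l hil
    by_contra hne
    have h4 := h2 i l j l hil hjl (Ne.symm hjl) hil
    rw [hT i l hil, hT j l hjl, opo, opo, vv, vv] at h4
    have h5 : (φ i l ⬝ᵥ v j) • vecMulVec (v i) (φ j l) =
        (φ j l ⬝ᵥ v i) • vecMulVec (v j) (φ i l) := by
      have h6 : ∀ A B X Y : Matrix (Fin n) (Fin n) K, 1 + A + B + X = 1 + B + A + Y → X = Y := by
        intro A B X Y h
        have h7 : 1 + A + B + X = 1 + A + B + Y := by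
          rw [h]
          abel
        exact add_left_cancel h7
      exact h6 _ _ _ _ h4
    obtain ⟨q, hq⟩ := Function.ne_iff.1 (hφ j l hjl)
    simp only [Pi.zero_apply] at hq
    have h6 : ∀ p, (φ i l ⬝ᵥ v j) * (v i p * φ j l q) = (φ j l ⬝ᵥ v i) * (v j p * φ i l q) := by
      intro p
      have h7 := congrFun (congrFun h5 p) q
      simpa only [Matrix.smul_apply, vecMulVec_apply, smul_eq_mul] using h7
    by_cases h7 : (φ j l ⬝ᵥ v i) * φ i l q = 0
    · apply hv i
      funext p
      have h8 := h6 p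
      have h9 : (φ j l ⬝ᵥ v i) * (v j p * φ i l q) = 0 := by
        linear_combination (v j p) * h7
      rw [h9] at h8
      rcases mul_eq_zero.1 h8 with h10 | h10
      · exact absurd h10 hne
      · rcases mul_eq_zero.1 h10 with h11 | h11
        · exact h11
        · exact absurd h11 hq
    · apply ind i j hij (((φ i l ⬝ᵥ v j) * φ j l q) / ((φ j l ⬝ᵥ v i) * φ i l q))
      funext p
      rw [Pi.smul_apply, smul_eq_mul, div_mul_eq_mul_div, div_eq_iff h7]
      linear_combination h6 p
  -- (3)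
  have r4 : ∀ i j l, i ≠ j → j ≠ l → i ≠ l → (φ i j ⬝ᵥ v j) • φ j l = (k : K) • φ i l := by
    intro i j l hij hjl hil
    have h4 := r3 i j l hij hjl hil (d2 j l i hjl hil) (d2 i l j hil hjl)
    obtain ⟨p, hp⟩ := Function.ne_iff.1 (hv i)
    simp only [Pi.zero_apply] at hp
    funext q
    have h5 := congrFun (congrFun h4 p) q
    simp only [Matrix.smul_apply, vecMulVec_apply, smul_eq_mul] at h5
    simp only [Pi.smul_apply, smul_eq_mul]
    apply mul_left_cancel₀ hp
    linear_combination h5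
  obtain ⟨μ, hμ⟩ : ∃ μ : Fin n → Fin n → K, ∀ i j, μ i j = φ i j ⬝ᵥ v j := ⟨fun i j => φ i j ⬝ᵥ v j,
    fun _ _ => rfl⟩
  have m0 : ∀ i j, i ≠ j → μ i j ≠ 0 := by
    intro i j hij h
    obtain ⟨l, hli, hlj⟩ := third hn i j
    have h4 := r4 i j l hij hlj.symm hli.symm
    rw [← hμ, h, zero_smul] at h4
    have h5 := smul_eq_zero.1 h4.symm
    rcases h5 with h5 | h5
    · exact hk0 h5
    · exact hφ i l hli.symm h5
  have mm : ∀ i j l, i ≠ j → j ≠ l → i ≠ l → μ i j * μ j l = k * μ i l := by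
    intro i j l hij hjl hil
    have h4 := congrArg (fun x => x ⬝ᵥ v l) (r4 i j l hij hjl hil)
    simp only [smul_dotProduct, smul_eq_mul] at h4
    rw [hμ, hμ, hμ]
    exact h4
  -- (5)
  obtain ⟨z⟩ : Nonempty (Fin n) := ⟨⟨0, by omega⟩⟩
  obtain ⟨c, hcz, hc⟩ : ∃ c : Fin n → K, c z = 1 ∧ ∀ i, i ≠ z → c i = μ i z / k :=
    ⟨fun i => if i = z then 1 else μ i z / k, if_pos rfl, fun i hi => if_neg hi⟩
  have c0 : ∀ i, c i ≠ 0 := by
    intro i
    by_cases hi : i = z
    · rw [hi, hcz]; exact one_ne_zero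
    · rw [hc i hi]; exact div_ne_zero (m0 i z hi) hk0
  have mc : ∀ i j, i ≠ j → μ i j * c j = k * c i := by
    intro i j hij
    by_cases hj : j = z
    · subst hj
      rw [hcz, hc i hij]
      field_simp
    · by_cases hi : i = z
      · subst hi
        rw [hcz, hc j hj]
        obtain ⟨l, hli, hlj⟩ := third hn i j
        have q1 := mm l j i hlj hj hli
        have q2 := mm l i j hli hij hlj
        have h4 : μ i j * μ j i = k * k := by
          apply mul_left_cancel₀ (m0 l i hli)
          linear_combination (μ j i) * q2 + k * q1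
        rw [mul_div_assoc', h4]
        field_simp
      · rw [hc i hi, hc j hj]
        have q := mm i j z hij hj hi
        field_simp
        linear_combination q
  -- the matrix
  obtain ⟨A, hA⟩ : ∃ A : Matrix (Fin n) (Fin n) K, ∀ q i, A q i = c i * v i q :=
    ⟨Matrix.of fun q i => c i * v i q, fun _ _ => rfl⟩
  have vA : ∀ i j l, i ≠ j → (φ i j ᵥ* A) l = if l = j then (k : K) * c i else 0 := by
    intro i j l hij
    have h4 : (φ i j ᵥ* A) l = c l * (φ i j ⬝ᵥ v l) := by
      simp only [vecMul, dotProduct, hA, Finset.mul_sum]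
      exact Finset.sum_congr rfl fun q _ => by ring
    rw [h4]
    split_ifs with hl
    · rw [hl, ← hμ, mul_comm, mc i j hij]
    · rw [d2 i j l hij hl, mul_zero]
  have hAu : IsUnit A := by
    rw [← Matrix.mulVec_injective_iff_isUnit]
    have h5 : ∀ x, A *ᵥ x = 0 → x = 0 := by
      intro x hx
      funext l
      obtain ⟨i, hi, -⟩ := third hn l l
      have h6 : φ i l ⬝ᵥ (A *ᵥ x) = 0 := by rw [hx, dotProduct_zero]
      rw [dotProduct_mulVec] at h6
      have h7 : (φ i l ᵥ* A) ⬝ᵥ x = (k : K) * c i * x l := by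
        simp only [dotProduct, vA i l _ hi, ite_mul, zero_mul, Finset.sum_ite_eq', Finset.mem_univ,
          if_true]
      rw [h7] at h6
      rcases mul_eq_zero.1 h6 with h8 | h8
      · exact absurd h8 (mul_ne_zero hk0 (c0 i))
      · exact h8
    intro x y hxy
    have h6 := h5 (x - y) (by rw [mulVec_sub]; exact sub_eq_zero.2 hxy)
    exact sub_eq_zero.1 h6
  obtain ⟨P, hP⟩ := hAu
  refine ⟨P, fun i j hij => ?_⟩
  have key : T i j * A = A * (1 + Matrix.single i j (k : K)) := by
    rw [hT i j hij, add_mul, mul_add, one_mul, mul_one, vecMulVec_mul]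
    congr 1
    ext p q
    rw [vecMulVec_apply, vA i j q hij]
    split_ifs with hq
    · rw [hq, Matrix.mul_single_apply_same, hA]
      ring
    · rw [Matrix.mul_single_apply_of_ne (hbj := hq), mul_zero]
  rw [← hP] at key
  have h4 : T i j = T i j * P.val * (P⁻¹).val := by
    rw [mul_assoc]
    have : P.val * (P⁻¹).val = 1 := by
      rw [← Units.val_mul, mul_inv_cancel, Units.val_one]
    rw [this, mul_one]
  rw [h4, key]

end Pool.Agent.H390.GR
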